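import Pool.Agent.W5h6.Additive.Final
import Pool.Agent.W5h6.Additive.Lines

/-!
# Strictly additive Steiner 2-designs with block size 6

The open problem asks whether some strictly additive 2-(v,k,1) design has k congruent to 2
modulo 4. We construct one: for every `n ≥ 1` there is a strictly additive 2-(3^(8n),6,1) design.

The case `n = 1` was found by computer. The points are the elements of `(ZMod 3)^8 = W ⊕ U`, where
`W` is the space of pairs over the field with 9 elements and `U` is the space of skew-hermitian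
2 by 2 matrices over it. The group of maps `(w, u) ↦ (w + c, u + d + B(c, w))`, where
`B(c, w) = c w* - w c*`, is a nonabelian regular group of affine maps, so it preserves zero-sum
6-subsets, and the design is invariant under this group (and under a group of order 20 normalising
it, which was used to find it). The kernel checks the table of the 1312 blocks through `0`.
-/

namespace Pool.Agent.Results.MP_9f4ef4_co.SinglyEvenAdditive

/-- `𝓑` is the set of blocks of a 2-(v,k,1) design with point set `V` (so `v = |V|`):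
`2 ≤ k ≤ v`, every block has `k` points, and any two distinct points lie in exactly one block. -/
def IsSteiner {V : Type} [Fintype V] (k : ℕ) (𝓑 : Set (Finset V)) : Prop :=
  2 ≤ k ∧ k ≤ Fintype.card V ∧ (∀ B ∈ 𝓑, B.card = k) ∧
    ∀ x y : V, x ≠ y → ∃! B : Finset V, B ∈ 𝓑 ∧ x ∈ B ∧ y ∈ B

/-- Some bijection between the point sets maps the blocks of `𝓑` onto the blocks of `𝓒`. -/
def Isomorphic {V W : Type} (𝓑 : Set (Finset V)) (𝓒 : Set (Finset W)) : Prop :=
  ∃ e : V ≃ W, (fun B : Finset V => B.map e.toEmbedding) '' 𝓑 = 𝓒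

/-- The 2-(v,k,1) design `𝓑` is strictly additive: for some finite abelian group `G` it is
isomorphic to a 2-(v,k,1) design with point set `G` all of whose blocks are zero-sum. -/
def StrictlyAdditive {V : Type} [Fintype V] (k : ℕ) (𝓑 : Set (Finset V)) : Prop :=
  IsSteiner k 𝓑 ∧
    ∃ (G : Type) (_ : AddCommGroup G) (_ : Fintype G) (𝓒 : Set (Finset G)),
      IsSteiner k 𝓒 ∧ Isomorphic 𝓑 𝓒 ∧ ∀ C ∈ 𝓒, ∑ x ∈ C, x = 0

theorem iso_refl {V : Type} (𝓑 : Set (Finset V)) : Isomorphic 𝓑 𝓑 := by
  refine ⟨Equiv.refl V, ?_⟩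
  have : (fun B : Finset V => B.map (Equiv.refl V).toEmbedding) = id := by
    funext B
    simp
  rw [this, Set.image_id]

open Pool.Agent.W5h6.Additive in
/-- For every `n ≥ 1` there is a strictly additive 2-(3^(8n),6,1) design; its block size `6` is
congruent to `2` modulo `4`. -/
theorem result : ∀ n : ℕ, 1 ≤ n →
    ∃ (V : Type) (_ : Fintype V) (k : ℕ) (𝓑 : Set (Finset V)),
      k = 6 ∧ k % 4 = 2 ∧ Fintype.card V = 3 ^ (8 * n) ∧ IsSteiner k 𝓑 ∧
        StrictlyAdditive k 𝓑 := by
  intro n hn
  classical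
  haveI : Fact (Nat.Prime 3) := ⟨Nat.prime_three⟩
  -- the field with 3^8 elements and an additive bijection with (ZMod 3)^8
  have hfr : Module.finrank (ZMod 3) (GaloisField 3 8) = 8 := GaloisField.finrank 3 (by norm_num)
  let φ : GaloisField 3 8 ≃ₗ[ZMod 3] (Fin 8 → ZMod 3) :=
    (Module.finBasisOfFinrankEq (ZMod 3) (GaloisField 3 8) hfr).equivFun
  haveI : Fintype (GaloisField 3 8) := Fintype.ofFinite _
  have hcF : Fintype.card (GaloisField 3 8) = 3 ^ 8 := by
    rw [← Nat.card_eq_fintype_card]
    exact GaloisField.card 3 8 (by norm_num)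
  have h6 : ((6 : ℕ) : GaloisField 3 8) = 0 := by
    have h3 : ((3 : ℕ) : GaloisField 3 8) = 0 := CharP.cast_eq_zero _ 3
    have : ((6 : ℕ) : GaloisField 3 8) = 2 * ((3 : ℕ) : GaloisField 3 8) := by
      push_cast
      norm_num
    rw [this, h3, mul_zero]
  obtain ⟨𝓑, hb1, hb2, hb3⟩ := lines_design (F := GaloisField 3 8)
    (V := Fin n → GaloisField 3 8) 6 h6
    {B | B.map φ.toEquiv.toEmbedding ∈ blocks}
    (by
      intro B hB
      have := blocks_card hB
      rwa [Finset.card_map] at this)
    (by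
      intro B hB
      have h := blocks_sum hB
      rw [Finset.sum_map] at h
      have h' : φ (∑ x ∈ B, x) = 0 := by
        rw [map_sum]
        exact h
      exact φ.map_eq_zero_iff.mp h')
    (by
      intro x y hxy
      have hne : φ x ≠ φ y := fun h => hxy (φ.injective h)
      obtain ⟨C, ⟨hC, hxC, hyC⟩, hCu⟩ := blocks_unique (φ x) (φ y) hne
      have hmap : ∀ D : Finset (Fin 8 → ZMod 3),
          (D.map φ.symm.toEquiv.toEmbedding).map φ.toEquiv.toEmbedding = D := by
        intro D
        ext z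
        simp
      have hmap' : ∀ D : Finset (GaloisField 3 8),
          (D.map φ.toEquiv.toEmbedding).map φ.symm.toEquiv.toEmbedding = D := by
        intro D
        ext z
        simp
      refine ⟨C.map φ.symm.toEquiv.toEmbedding, ⟨?_, ?_, ?_⟩, ?_⟩
      · show (C.map φ.symm.toEquiv.toEmbedding).map φ.toEquiv.toEmbedding ∈ blocks
        rw [hmap]
        exact hC
      · exact Finset.mem_map.mpr ⟨φ x, hxC, by simp⟩
      · exact Finset.mem_map.mpr ⟨φ y, hyC, by simp⟩
      · rintro B ⟨hB, hxB, hyB⟩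
        have := hCu (B.map φ.toEquiv.toEmbedding)
          ⟨hB, Finset.mem_map.mpr ⟨x, hxB, rfl⟩, Finset.mem_map.mpr ⟨y, hyB, rfl⟩⟩
        rw [← this, hmap'])
  have hcV : Fintype.card (Fin n → GaloisField 3 8) = 3 ^ (8 * n) := by
    rw [Fintype.card_fun, hcF, Fintype.card_fin, pow_mul]
  have hst : IsSteiner 6 𝓑 := by
    refine ⟨by norm_num, ?_, hb1, hb3⟩
    rw [hcV]
    calc 6 ≤ 3 ^ (8 * 1) := by norm_num
      _ ≤ 3 ^ (8 * n) := Nat.pow_le_pow_right (by norm_num) (by omega)
  exact ⟨Fin n → GaloisField 3 8, inferInstance, 6, 𝓑, rfl, rfl, hcV, hst,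
    hst, Fin n → GaloisField 3 8, inferInstance, inferInstance, 𝓑, hst, iso_refl 𝓑, hb2⟩

end Pool.Agent.Results.MP_9f4ef4_co.SinglyEvenAdditive
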